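import Mathlib
import Pool.Agent.V1168.EF.Weil
import Pool.Agent.V1168.EF.Rel

/-!
# The standard conjecture D for the products of **every** variety over a finite field with all abelian
varieties whose Frobenius eigenvalues have pair flips, except finitely many of small dimension

Let `K i` (`i` in a set `I`, which may be **infinite**) be CM fields with pair flips (`PairFlips`): for
any two complex embeddings `φ` of `K i` and `ψ` of `K k` (with `i = k` or not) which are neither equal
nor complex conjugate, some automorphism of `ℂ` is the identity on `φ (K i)` and the complex conjugation
on `ψ (K k)`. One CM field `K` of degree `2 g` has this property if the Galois group of its normal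
closure is the largest possible one (of order `2 ^ g g!`), or contains, for each pair of complex
conjugate embeddings, an element which exchanges them and fixes all other embeddings, or contains all
the automorphisms that exchange two pairs in this sense (`g > 2`); several such fields with linearly
disjoint normal closures have it together (for example there are infinite families of imaginary
quadratic fields). We fix an isomorphism `ν` of the algebraic closure of `ℚ_p` with `ℂ`; it defines a
`p`-adic valuation `v` of `ℂ` with `v p = 1`. Let `π i` be a Weil number for `q = p ^ a` in `K i` whose
slope vector, the function `2 v (φ π) - a` on the complex embeddings `φ` (`slopeVector`), is not zero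
(there are no other conditions on the slopes).

For finite subsets `J` of `I` let `f i`, `i` in `J`, be monic polynomials whose complex roots are
conjugates of `π i` (`IsPolyOf`), for instance the characteristic polynomials of Frobenius of the abelian
varieties in the isogeny classes of the `π i` over the field with `q` elements. Let `A` be an abelian
variety over the field with `Q = q ^ s` elements which is isogenous to a product of powers of abelian
varieties coming from the field with `q` elements, with characteristic polynomials `f i`, `i` in `J`
(`IsAbelian`).

Let `Z` be **any** smooth projective variety over the field with `Q` elements, and `H` any Weil
cohomology with an algebraically closed coefficient field of characteristic zero, for instance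
`ℓ`-adic cohomology for any `ℓ` or crystalline cohomology, with extended coefficients.
Let `Ω` be a finite set of complex numbers, stable under the automorphisms of `ℂ`, whose elements are
nonzero and lie in CM fields or in totally real fields (`IsStable`). A number `ρ` is generated by `Ω`
(`Generated p Ω`) if it is not zero and a power of it is a product of powers of elements of `Ω` and of a
power of `p`. We suppose
that all eigenvalues of the Frobenius endomorphism on `H(Z)` are generated by `Ω` (`AreGenerated`).
**Such a set exists for every `Z`**: the set of the Frobenius eigenvalues (they are Weil numbers, by
Deligne, and by Katz and Messing). For an abelian variety, for a product of curves, or for any variety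
which is dominated by it, the eigenvalues on `H^1` of the abelian variety or of the curves are
sufficient; and `Ω` is the same for all powers of `Z`, all products of them, and all varieties
dominated by these.

**The theorem: there is a finite subset `S` of `I` with `∑ [K i : ℚ] ≤ |Ω|`, the sum over `i` in `S`,
such that for all finite sets `J` disjoint from `S`, all `f i`, `s`, `A`, `H` and all `Z` as above,
the standard conjecture D for `A × Z` is equivalent to the one for `Z`:** The set
`S` depends only on `Ω` and the `π i`, and not on the powers of the abelian varieties, on the finite
field, on `H` or on `Z`. So if `B i` are the simple abelian varieties of the `π i` (of dimension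
`[K i : ℚ] / 2`, for instance if they are ordinary), then **the exceptional ones for `Z` have together
at most the dimension `|Ω| / 2`, whatever the abelian varieties are**: all others can be multiplied to
`Z`. The bound is sharp: for `Z = B 1 × ⋯ × B r` (and its powers) `Ω` has `2 ∑ dim B i` elements, and
all the `B i` are exceptional, as there are divisor classes in `H^1(B i) ⊗ H^1(Z)`.

The results of the starting files of this kind, and my `AllCMTypesTimes`, are about varieties `Z` whose
Frobenius eigenvalues are unrelated to the fields `K i` or have small slopes. **Here the Frobenius
eigenvalues of `Z` are arbitrary**: they may generate the same fields `K i`, or fields containing them.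

For all `c`, **homological and numerical equivalence coincide for the cycles of codimension `c` on
`A × Z` if and only if they coincide for the cycles of the codimensions `c - i`, `0 ≤ i ≤ dim A`,
on `Z`.** No conjecture is assumed. For instance, let `Z` be any surface, or any threefold for which the
conjecture is known for the cycles of codimension two: then the conjecture D is true for `A × Z`, in all
codimensions, for all abelian varieties `A` without factors in `S`, and the exceptional factors have
together at most the dimension `|Ω| / 2`: half the number of the Frobenius eigenvalues of `Z`
which are not powers of `√Q` up to roots of unity. If `Z` is dominated by a product of curves whose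
genera have the sum `G`, their dimension is at most `G`, and the same set `S` can be used for all
powers of `Z`. (For abelian varieties over finite fields Clozel has proved the conjecture for
infinitely many `ℓ`; here `H` is arbitrary, and `Z` is not an abelian variety.)

The framework (`TheoryData`, `IsChow`, `IsWeil`) is the one of helper492: the Chow groups `C` with
their pull-backs, push-forwards and products, and a Weil cohomology theory `H` with coefficients in
an algebraically closed field, on a class `𝒱` of smooth proper varieties over `k`. The Frobenius
endomorphism acts on `CH^i(A × Z)_ℚ` as multiplication by `Q ^ i` (`IsFrobenius`). `IsAbelian` contains
the theorem of Tate on divisors on abelian varieties.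

The proof. Let `x i` be the slope vectors of the `π i`. If a product of a number `ρ` generated by `Ω`
and of roots of the `f i`, no two of them complex conjugate, is a power of `q` up to a root of unity,
then, computing valuations, there are odd functions `n i` on the embeddings of the `K i`, not all zero,
such that the function `σ ↦ ∑ n i φ * x i (σ φ)` of the automorphisms `σ` of `ℂ` (the sum over all `i` and
all embeddings `φ`) is in the space `F` spanned by the functions `σ ↦ v (σ β) - v (conj (σ β))`, `β` in
`Ω`. This space is stable under translations. So we can average over the automorphisms which fix a
given embedding `φ₀` of `K i`: by the pair flips the average of an odd function is zero except at `φ₀`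
and its conjugate, so that the function `σ ↦ x i (σ φ₀)` is in `F` if `n i φ₀` is not zero, and then the
same is true for all embeddings of this field `K i` (`EF.orb_mem`). Let `S` be the set of all `i` such
that these functions are in `F`. Again by the pair flips, the functions `σ ↦ x i (σ φ)`, for all `i` and
one `φ` out of each complex conjugate pair, are linearly independent. As the dimension of `F` is at most
`|Ω| / 2` (conjugate `β` give opposite functions), `∑ [K i : ℚ] / 2`, the sum over `S`, is at most
`|Ω| / 2` (`EF.exists_exceptional`), and outside of `S` there are no such relations
(`EF.exactPair_of`).
If a Weil number `α` of the cohomology of `A` and a Frobenius eigenvalue `ρ` of `Z` have the product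
`Q ^ c`, then `α = Q ^ k` and `α` is a product of pairs of complex conjugate numbers, so that the
eigenvectors of the Frobenius endomorphism of `A` for `α` are products of divisor classes. There are
products `D t` of `deg t` divisor classes on `A` with a dual system `E t` for the intersection pairing,
and the classes of the cycles on `A × Z`, which are eigenvectors of Frobenius, are sums of
products `D t × z t`, where `z t` is the push-forward of the product with `E t`
(`Y1.CT.kunneth_gen`). By the projection formula a cycle on `A × Z` is numerically trivial if and only
if all these push-forwards are, and homologically trivial if and only if they are
(`Y1.CT.homNumIn_prod_iff`, `EF.homNumTimes`).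
-/

set_option autoImplicit false

namespace Pool.Agent.Results.MP_5f0950_ag.EveryVarietyTimes

open NumberField Pool.Agent.V1168.EV Pool.Agent.V1168.EF

/-- **For every variety `Z`, whose Frobenius eigenvalues are generated by the stable finite set `Ω`, and all
abelian varieties `A` in a family given by Weil numbers `π i` in CM fields with pair flips, without
factors in an exceptional set `S` with `∑ [K i : ℚ] ≤ |Ω|`: homological and numerical equivalence
coincide on `A × Z` in codimension `c` if and only if they do on `Z` in the codimensions `c - i`,
`0 ≤ i ≤ dim A`.** -/
theorem result {p : ℕ} [Fact p.Prime] (ν : PadicAlgCl p ≃+* ℂ) {I : Type}
    (K : I → Type) [∀ i, Field (K i)] [∀ i, NumberField (K i)] [∀ i, IsCMField (K i)]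
    (hK : PairFlips K) (a : ℕ) (ha : 0 < a) (π : ∀ i, K i)
    (hπ : ∀ i, π i * IsCMField.complexConj (K i) (π i) = (p : K i) ^ a)
    (hs : ∀ i, ∃ φ, slopeVector ν a (π i) φ ≠ 0) (Ω : Finset ℂ) (hΩ : IsStable Ω) :
    ∃ S : Finset I, ∑ i ∈ S, Module.finrank ℚ (K i) ≤ Ω.card ∧
      ForAllPolys π (p ^ a) S (fun _ q f => HomNumTimes p Ω q f) := by
  obtain ⟨S, hS, h⟩ := exists_factors ν hK ha hπ hs hΩ
  exact ⟨S, hS, h _ fun J q f hq hR => homNumTimes hq hR⟩

end Pool.Agent.Results.MP_5f0950_ag.EveryVarietyTimes
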