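import Pool.Agent.V11263.NGD.Num

/-!
# Numerically trivial classes on all products of given varieties come from products with few factors

Let `X 1, …, X r` be arbitrary smooth projective varieties over a field `k` and `W` a Weil cohomology
theory. We consider all products `Z = X i₁ × ⋯ × X iₘ` with any number of factors (repetitions are
allowed); a sub-product of `Z` is the product over a subsequence of the sequence of indices.

**Theorem.** There is a number `N` such that for all these products `Z`:

1. for every `c`, the class of each numerically trivial cycle of codimension `c` on `Z` is in the left
   ideal of the cohomology ring of `Z` which is generated by the pull-backs of the classes of the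
   numerically trivial cycles of codimension at most `c` on the sub-products with at most `N` factors;
2. for every `c`, the conjecture D in codimensions at most `c` for the sub-products with at most `N`
   factors implies the conjecture D in codimensions at most `c` for `Z`;
3. the conjecture D for the sub-products with at most `N` factors implies the conjecture D for `Z`.

So a possible failure of the conjecture D on the products of given varieties comes from finitely many
products. No other conjecture and no hypothesis on the `X i` is used. (The conjecture D is not known to be
stable under products.) The parts 2 and 3 follow from 1; since `N` is not effective they also follow from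
the lemma of Higman for the words in the indices `i`.

The proof: words in homogeneous bases of the cohomology of the `X i` span the cohomology of the products.
By the lemma of Higman on subwords, applied to leading words, the left ideals generated by any classes on
the products are generated, for products with many factors, by the pull-backs from proper sub-products
(`Pool.Agent.V1141.NG.mem_idealOf`); an ideal generated by zero is zero.
-/

set_option autoImplicit false

open CategoryTheory AlgebraicGeometry

universe u v

namespace Pool.Agent.Results.MP_5f0950_ag.FewFactors

open Pool.Agent.H914 VarClass Obj WeilCohomology Pool.Agent.V1141.NG Pool.Agent.V11263.NGD

/-- **The conjecture D for all products of given varieties follows from the conjecture D for the products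
with at most `N` factors.** -/
theorem result {k : Type u} [Field k] {𝒱 : VarClass k} {ops : CycleOps 𝒱}
    (W : WeilCohomology.{u, v} ops) {r : ℕ} (X : Fin r → 𝒱.Obj) :
    ∃ N : ℕ, ∀ (i : Fin r) (I : List (Fin r)),
      (∀ c x, IsNumTrivial W (· = c) (prodL X i I) x →
        x ∈ idealOf (IsNumTrivial W (· ≤ c)) X N i I) ∧
      (∀ c, (∀ j J, IsSub j J i I → J.length + 1 ≤ N → HomEqNumUpTo W c (prodL X j J)) →
        HomEqNumUpTo W c (prodL X i I)) ∧
      ((∀ j J, IsSub j J i I → J.length + 1 ≤ N → HomEqNum W (prodL X j J)) →
        HomEqNum W (prodL X i I)) :=
  num_main W X

end Pool.Agent.Results.MP_5f0950_ag.FewFactors
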