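import Pool.Agent.V1157.PI.Final

/-!
# Conjecture D and polynomial identities for numerically trivial correspondences
-/

open CategoryTheory AlgebraicGeometry

universe u v w

namespace Pool.Agent.Results.MP_5f0950_ag.PolynomialIdentity

open Pool.Agent.H914 Pool.Agent.H914.VarClass Pool.Agent.H914.VarClass.Obj Pool.Agent.W492.BB
  Pool.Agent.W550.Corr Pool.Agent.TH133 Pool.Agent.TH829.Prime Pool.Agent.V1157.PI

/-- Let `𝒱` be a class of smooth projective varieties closed under products (for example all
smooth projective geometrically irreducible varieties over `k`), `H` a Weil cohomology theory on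
`𝒱`, and let `c` be a function, not identically zero, with rational values on the permutations of
`d ≥ 1` letters. Then conjecture D (numerically trivial classes are homologically trivial) holds for
all varieties of `𝒱` and all codimensions if and only if for all varieties `X` of `𝒱` and all
numerically trivial `W_1, …, W_d ∈ CH^(dim X)(X × X)` the class of the multilinear polynomial
`∑ c(σ) W_{σ(1)} ∘ ⋯ ∘ W_{σ(d)}` is zero. For example (`d = 2`, the commutator): if and only if
any two numerically trivial self-correspondences commute modulo homological equivalence. -/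
theorem result {k : Type u} [Field k] {𝒱 : VarClass k} {C : TheoryData.{u, v, 0} 𝒱 ℚ}
    [IsChowProj C] {K : Type w} [Field K] (H : WeilTheoryData.{u, v, w} C K) [IsWeilProj H]
    (d : ℕ) (hd : 0 < d) (c : Equiv.Perm (Fin d) → ℚ) (hc : c ≠ 0) :
    (∀ (X : 𝒱.Obj) (i : ℤ) (a : C.A X), C.Deg i a → NumTrivial C i a → H.cl a = 0) ↔
      ∀ (X : 𝒱.Obj) (W : Fin d → C.A (X.prod X)),
        (∀ i, C.Deg X.dim (W i) ∧ NumTrivial C X.dim (W i)) → H.cl (polyVal C c W) = 0 :=
  conjD H hd hc

end Pool.Agent.Results.MP_5f0950_ag.PolynomialIdentity
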